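import Pool.Agent.H821Z.Ex.Main

/-!
A countably categorical `NSOP₁` (and `NSOP`) theory in which every type over the empty set forks
over the empty set.
-/

namespace Pool.Agent.Results.MP_4b3c04_lc.NoExistence

open Pool.Agent.H821Z.Ex

universe w

theorem result : ∃ (L : FirstOrder.Language.{0, 0}) (T : L.Theory), T.IsComplete ∧
    CountablyCategorical L T ∧ ∀ M : FirstOrder.Language.Theory.ModelType.{0, 0, w} T,
      ¬HasSOP1 L M ∧ ¬HasSOP L M ∧ ∀ a : Fin 1 → M, TypeForks L M ∅ a :=
  main

end Pool.Agent.Results.MP_4b3c04_lc.NoExistence
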